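import Pool.Agent.Helper524_FM.Expand

/-!
# The complete expansion of the growth rates of free metabelian groups

`ω_r = 2 r - 1 - 11 / (16 r ^ 3) + ∑ c_k / r ^ k` to all orders, with rational coefficients.
-/

namespace Pool.Agent.Results.MP_841c5e_al.FullExpansion

open Pool.Agent.Helper524_FM

/-- The growth rates `ω_r` of the free metabelian groups `M_r` exist and have a complete
asymptotic expansion in powers of `1 / r` with rational coefficients, which begins with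
`2 r - 1 + 0 / r + 0 / r ^ 2 - (11 / 16) / r ^ 3`. -/
theorem result :
    ∃ (ω : ℕ → ℝ) (c : ℕ → ℚ),
      (∀ r : ℕ, 2 ≤ r →
        Filter.Tendsto (fun n : ℕ => (sph r n : ℝ) ^ (1 / (n : ℝ))) Filter.atTop
          (nhds (ω r))) ∧
      c 0 = -1 ∧ c 1 = 0 ∧ c 2 = 0 ∧ c 3 = -11 / 16 ∧
      ∀ K : ℕ, ∃ C : ℝ, ∀ r : ℕ, 2 ≤ r →
        |ω r - (2 * (r : ℝ) + ∑ k ∈ Finset.range (K + 1), (c k : ℝ) / (r : ℝ) ^ k)| ≤
          C / (r : ℝ) ^ (K + 1) := by
  obtain ⟨c, c0, c1, c2, c3, c4, hc⟩ := om_expand'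
  refine ⟨om, fun k => c (k + 1), fun r hr => om_tendsto (by omega), c1, c2, c3, c4, fun K => ?_⟩
  obtain ⟨C, R, h⟩ := hc (K + 1)
  obtain ⟨B, hB⟩ : ∃ B : ℝ, B = ∑ k ∈ Finset.range (K + 1), |(c (k + 1) : ℝ)| := ⟨_, rfl⟩
  have hB0 : 0 ≤ B := by rw [hB]; positivity
  refine ⟨|C| + (4 * R + B) * (R : ℝ) ^ (K + 1), fun r hr => ?_⟩
  have hr0 : 0 < r := by omega
  have hrp : (0 : ℝ) < r := by exact_mod_cast hr0
  have hr1 : (1 : ℝ) ≤ r := by exact_mod_cast hr0
  rcases Nat.lt_or_ge r R with hlt | hge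
  · have h1 := one_le_om hr0
    have h2 := om_le hr0
    have h3 : |∑ k ∈ Finset.range (K + 1), (c (k + 1) : ℝ) / (r : ℝ) ^ k| ≤ B := by
      rw [hB]
      refine (Finset.abs_sum_le_sum_abs _ _).trans (Finset.sum_le_sum fun k _ => ?_)
      rw [abs_div, abs_of_pos (by positivity : (0 : ℝ) < (r : ℝ) ^ k)]
      exact div_le_self (abs_nonneg _) (one_le_pow₀ hr1)
    have h4 : |om r - (2 * (r : ℝ) + ∑ k ∈ Finset.range (K + 1), (c (k + 1) : ℝ) / (r : ℝ) ^ k)| ≤
        4 * r + B := by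
      rw [abs_le] at h3 ⊢
      constructor <;> linarith
    refine h4.trans ?_
    rw [le_div_iff₀ (by positivity)]
    have h6 : (r : ℝ) ≤ R := by exact_mod_cast hlt.le
    calc (4 * (r : ℝ) + B) * (r : ℝ) ^ (K + 1) ≤ (4 * R + B) * (R : ℝ) ^ (K + 1) := by gcongr
      _ ≤ _ := by
        have := abs_nonneg C
        linarith
  · have h1 := h r hge
    rw [Finset.sum_range_succ', c0] at h1
    have h2 : om r - (2 * (r : ℝ) + ∑ k ∈ Finset.range (K + 1), (c (k + 1) : ℝ) / (r : ℝ) ^ k) =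
        r * (om r / r - (∑ k ∈ Finset.range (K + 1), (c (k + 1) : ℝ) * (1 / (r : ℝ)) ^ (k + 1) +
          ((2 : ℚ) : ℝ) * (1 / (r : ℝ)) ^ 0)) := by
      have e1 : (r : ℝ) * ∑ k ∈ Finset.range (K + 1),
          (c (k + 1) : ℝ) * (1 / (r : ℝ)) ^ (k + 1) =
          ∑ k ∈ Finset.range (K + 1), (c (k + 1) : ℝ) / (r : ℝ) ^ k := by
        rw [Finset.mul_sum]
        apply Finset.sum_congr rfl
        intro k _
        rw [one_div_pow, pow_succ]
        field_simp
      rw [mul_sub, mul_add, e1]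
      push_cast
      field_simp
      ring
    rw [h2, abs_mul, abs_of_pos hrp]
    calc (r : ℝ) * _ ≤ r * (C / (r : ℝ) ^ (K + 1 + 1)) := mul_le_mul_of_nonneg_left h1 hrp.le
      _ = C / (r : ℝ) ^ (K + 1) := by rw [pow_succ (r : ℝ) (K + 1)]; field_simp
      _ ≤ _ := by
        gcongr
        have e1 := le_abs_self C
        have e2 : 0 ≤ (4 * (R : ℝ) + B) * (R : ℝ) ^ (K + 1) := by positivity
        linarith

end Pool.Agent.Results.MP_841c5e_al.FullExpansion
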