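import Pool.Agent.Helper524_FM.HW4

/-!
# A bound of Hammersley-Welsh type for free metabelian groups

`ω_r ^ n ≤ f_r(n) ≤ ω_r ^ (n + 1) exp (2 √(2 (n + 1)))` for all `r` and `n`.
-/

namespace Pool.Agent.Results.MP_841c5e_al.HammersleyWelsh

open Pool.Agent.Helper524_FM

/-- For every rank `r ≥ 2` the growth rate `ω_r` of the free metabelian group `M_r` exists, and
for every `n` the number `f_r(n)` of elements of length `n` lies between `ω_r ^ n` and
`ω_r ^ (n + 1) exp (2 √(2 (n + 1)))`. -/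
theorem result :
    ∀ r : ℕ, 2 ≤ r → ∃ ω : ℝ,
      Filter.Tendsto (fun n : ℕ => (sph r n : ℝ) ^ (1 / (n : ℝ))) Filter.atTop (nhds ω) ∧
      ∀ n : ℕ, ω ^ n ≤ (sph r n : ℝ) ∧
        (sph r n : ℝ) ≤ ω ^ (n + 1) * Real.exp (2 * Real.sqrt (2 * ((n : ℝ) + 1))) := by
  intro r hr
  have hr0 : 0 < r := by omega
  exact ⟨om r, om_tendsto hr0, fun n => ⟨om_pow_le_sph hr0 n, sph_le_om hr0 n⟩⟩

end Pool.Agent.Results.MP_841c5e_al.HammersleyWelsh
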