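import Pool.Agent.Helper524_FM.Lb2

/-!
# A lower bound for the growth rate of the free metabelian group of rank two
-/

namespace Pool.Agent.Results.MP_841c5e_al.LowerRankTwo

open Pool.Agent.Helper524_FM

/-- The growth rate `ω_2` of the free metabelian group of rank two is at least `2.72`. -/
theorem result :
    ∃ ω : ℝ, Filter.Tendsto (fun n : ℕ => (sph 2 n : ℝ) ^ (1 / (n : ℝ))) Filter.atTop (nhds ω) ∧
      2.72 ≤ ω :=
  ⟨om 2, om_tendsto (by norm_num), om_two_lower⟩

end Pool.Agent.Results.MP_841c5e_al.LowerRankTwo
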