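import Pool.Agent.Helper524_FM.Linear2

/-!
# The growth rate from two consecutive spheres

`ω_r = f_r(n + 1) / f_r(n) + O(r ^ (-⌈n / 2⌉))` for every fixed `n`.
-/

namespace Pool.Agent.Results.MP_841c5e_al.SphereRatio

open Pool.Agent.Helper524_FM

/-- For every `n` the growth rate `ω_r` of the free metabelian group `M_r` is
`f_r(n + 1) / f_r(n) + O(r ^ (-⌈n / 2⌉))` as `r` tends to infinity. -/
theorem result :
    ∃ ω : ℕ → ℝ,
      (∀ r : ℕ, 2 ≤ r →
        Filter.Tendsto (fun n : ℕ => (sph r n : ℝ) ^ (1 / (n : ℝ))) Filter.atTop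
          (nhds (ω r))) ∧
      ∀ n : ℕ, ∃ C : ℝ, ∀ r : ℕ, 2 ≤ r →
        |ω r - (sph r (n + 1) : ℝ) / (sph r n : ℝ)| ≤ C / (r : ℝ) ^ ((n + 1) / 2) := by
  refine ⟨om, fun r hr => om_tendsto (by omega), fun n => ?_⟩
  obtain ⟨C, R, h⟩ := ratio_linear n
  refine ⟨|C| + 4 * (R : ℝ) * (R : ℝ) ^ ((n + 1) / 2), fun r hr => ?_⟩
  have hr0 : 0 < r := by omega
  have hrp : (0 : ℝ) < r := by exact_mod_cast hr0
  rcases Nat.lt_or_ge r R with hlt | hge
  · have h1 := one_le_om hr0
    have h2 := om_le hr0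
    have h3 : (sph r (n + 1) : ℝ) / sph r n ≤ 2 * r := by
      have hs : (0 : ℝ) < sph r n := by exact_mod_cast sph_pos hr0 n
      rw [div_le_iff₀ hs]
      have h4 := sph_submult r n 1
      have h5 := sph_le_words r 1
      rw [pow_one] at h5
      have h6 : sph r (n + 1) ≤ 2 * r * sph r n := by
        rw [mul_comm]
        exact h4.trans (Nat.mul_le_mul_left _ h5)
      exact_mod_cast h6
    have h4 : 0 ≤ (sph r (n + 1) : ℝ) / sph r n := by positivity
    have h5 : |om r - (sph r (n + 1) : ℝ) / sph r n| ≤ 4 * r := by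
      rw [abs_le]
      constructor <;> linarith
    refine h5.trans ?_
    rw [le_div_iff₀ (by positivity)]
    have h6 : (r : ℝ) ≤ R := by exact_mod_cast hlt.le
    calc 4 * (r : ℝ) * (r : ℝ) ^ ((n + 1) / 2) ≤ 4 * (R : ℝ) * (R : ℝ) ^ ((n + 1) / 2) := by
          gcongr
      _ ≤ _ := by
        have := abs_nonneg C
        linarith
  · refine (h r hge).trans ?_
    gcongr
    have e1 := le_abs_self C
    have e2 : 0 ≤ 4 * (R : ℝ) * (R : ℝ) ^ ((n + 1) / 2) := by positivity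
    linarith

end Pool.Agent.Results.MP_841c5e_al.SphereRatio
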